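import Mathlib
import Pool.Agent.K9h66.ST.Main

set_option autoImplicit false

/-!
# Similar tetrahedra spanned by `n` points in three-space

For a tetrahedron `T` with algebraic coordinates (up to similarity) some `n`-point sets span at least
`c n^{5/3}` tetrahedra similar to `T`. In particular `f(n) ≥ c n^{5/3}`.

The set is a box in `O^3`, where `O` is the ring of integers of a real number field; the similar
copies are the images of `T` under `x ↦ q x q̄ + p`, where `q` runs over the quaternions with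
coordinates in a box of `O` whose side is the square root of the side of the first box.
-/

namespace Pool.Agent.Results.MP_36f34d_co.FiveThirds

open Filter

/-- Euclidean 3-space -/
abbrev E3 := EuclideanSpace ℝ (Fin 3)

/-- `T` and `T'` are similar: `T'` is the image of `T` under the composition of the scaling
`x ↦ r x` (with `r > 0`) and an isometry `g` of the space. -/
def Similar (T T' : Finset E3) : Prop :=
  ∃ (g : E3 ≃ᵢ E3) (r : ℝ), 0 < r ∧ (fun x => g (r • x)) '' (T : Set E3) = (T' : Set E3)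

/-- a tetrahedron: four points that do not lie in a plane -/
def IsTetrahedron (T : Finset E3) : Prop := T.card = 4 ∧ ¬ Coplanar ℝ (T : Set E3)

/-- `s(P, T)`: the number of 4-element subsets of `P` that are tetrahedra similar to `T` -/
noncomputable def s (P T : Finset E3) : ℕ := by
  classical
  exact ((P.powersetCard 4).filter fun S => IsTetrahedron S ∧ Similar T S).card

/-- the largest number of tetrahedra similar to `T` spanned by `n` points -/
noncomputable def fT (T : Finset E3) (n : ℕ) : ℕ :=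
  sSup {m : ℕ | ∃ P : Finset E3, P.card = n ∧ s P T = m}

/-- `f(n)`: the largest number of pairwise similar tetrahedra spanned by `n` points -/
noncomputable def f (n : ℕ) : ℕ :=
  sSup {m : ℕ | ∃ P T : Finset E3, P.card = n ∧ IsTetrahedron T ∧ s P T = m}

theorem s_le (P T : Finset E3) : s P T ≤ 2 ^ P.card := by
  classical
  unfold s
  refine (Finset.card_le_card (Finset.filter_subset _ _)).trans ?_
  rw [Finset.card_powersetCard]
  exact Nat.choose_le_two_pow _ _

theorem s_le_fT (P T : Finset E3) : s P T ≤ fT T P.card := by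
  refine le_csSup ⟨2 ^ P.card, ?_⟩ ⟨P, rfl, rfl⟩
  rintro m ⟨P', h1, rfl⟩
  rw [← h1]
  exact s_le _ _

theorem s_le_f (P T : Finset E3) (hT : IsTetrahedron T) : s P T ≤ f P.card := by
  refine le_csSup ⟨2 ^ P.card, ?_⟩ ⟨P, T, rfl, hT, rfl⟩
  rintro m ⟨P', T', h1, _, rfl⟩
  rw [← h1]
  exact s_le _ _

/-- the conjugate of an isometry by a scaling -/
theorem conj_iso (g : E3 ≃ᵢ E3) (c : ℝ) (hc : 0 < c) :
    ∃ h : E3 ≃ᵢ E3, ∀ x, h (c • x) = c • g x := by
  refine ⟨IsometryEquiv.mk' (fun x => c • g (c⁻¹ • x)) (fun x => c • g.symm (c⁻¹ • x)) ?_ ?_, ?_⟩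
  · intro x
    rw [smul_smul c⁻¹ c, inv_mul_cancel₀ hc.ne', one_smul, g.apply_symm_apply, smul_smul,
      mul_inv_cancel₀ hc.ne', one_smul]
  · refine Isometry.of_dist_eq fun x y => ?_
    rw [dist_smul₀, g.dist_eq, dist_smul₀, ← mul_assoc, norm_inv, mul_inv_cancel₀ (by
      rw [Real.norm_eq_abs, abs_of_pos hc]; exact hc.ne'), one_mul]
  · intro x
    change c • g (c⁻¹ • (c • x)) = c • g x
    rw [smul_smul c⁻¹ c, inv_mul_cancel₀ hc.ne', one_smul]

theorem similar_trans {T T' T'' : Finset E3} (h : Similar T T') (h' : Similar T' T'') :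
    Similar T T'' := by
  obtain ⟨g, r, hr, hg⟩ := h
  obtain ⟨g', r', hr', hg'⟩ := h'
  obtain ⟨k, hk⟩ := conj_iso g r' hr'
  refine ⟨k.trans g', r' * r, mul_pos hr' hr, ?_⟩
  rw [← hg', ← hg, Set.image_image]
  refine Set.image_congr fun x _ => ?_
  rw [IsometryEquiv.trans_apply, mul_smul, hk]

theorem similar_card {T T' : Finset E3} (h : Similar T T') : T'.card = T.card := by
  classical
  obtain ⟨g, r, hr, hg⟩ := h
  have h1 : T.image (fun x => g (r • x)) = T' := by
    apply Finset.coe_injective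
    rw [Finset.coe_image, hg]
  rw [← h1, Finset.card_image_of_injective]
  intro x y hxy
  exact smul_right_injective E3 hr.ne' (g.injective hxy)

/-- the similarity as an affine map -/
noncomputable def simAff (g : E3 ≃ᵢ E3) (r : ℝ) : E3 →ᵃ[ℝ] E3 :=
  (g.toRealAffineIsometryEquiv.toAffineEquiv.toAffineMap).comp
    (AffineMap.homothety (0 : E3) r)

theorem simAff_apply (g : E3 ≃ᵢ E3) (r : ℝ) (x : E3) : simAff g r x = g (r • x) := by
  simp [simAff, AffineMap.homothety_apply]

theorem coplanar_image (F : E3 →ᵃ[ℝ] E3) (T : Set E3) (h : Coplanar ℝ T) :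
    Coplanar ℝ (F '' T) := by
  unfold Coplanar at *
  rw [← AffineMap.map_vectorSpan]
  exact (rank_map_le _ _).trans h

theorem similar_symm {T T' : Finset E3} (h : Similar T T') : Similar T' T := by
  obtain ⟨g, r, hr, hg⟩ := h
  obtain ⟨k, hk⟩ := conj_iso g.symm r⁻¹ (inv_pos.2 hr)
  refine ⟨k, r⁻¹, inv_pos.2 hr, ?_⟩
  rw [← hg, Set.image_image]
  conv_rhs => rw [← Set.image_id (T : Set E3)]
  refine Set.image_congr fun x _ => ?_
  rw [hk, g.symm_apply_apply, smul_smul, inv_mul_cancel₀ hr.ne', one_smul]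
  rfl

theorem similar_coplanar {T T' : Finset E3} (h : Similar T T') (hc : Coplanar ℝ (T : Set E3)) :
    Coplanar ℝ (T' : Set E3) := by
  obtain ⟨g, r, hr, hg⟩ := h
  rw [← hg]
  have := coplanar_image (simAff g r) T hc
  rwa [Set.image_congr (fun x _ => simAff_apply g r x)] at this

theorem similar_tet {T T' : Finset E3} (h : Similar T T') (hT : IsTetrahedron T) :
    IsTetrahedron T' :=
  ⟨(similar_card h).trans hT.1, fun hc => hT.2 (similar_coplanar (similar_symm h) hc)⟩

open Pool.Agent.K9h66.ST (dt cr NonCol emb)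

theorem sq3 (x y z : ℝ) (h : x * x + y * y + z * z = 0) : x = 0 ∧ y = 0 ∧ z = 0 := by
  have hx := mul_self_nonneg x
  have hy := mul_self_nonneg y
  have hz := mul_self_nonneg z
  exact ⟨mul_self_eq_zero.1 (by linarith), mul_self_eq_zero.1 (by linarith),
    mul_self_eq_zero.1 (by linarith)⟩

theorem exists_noncol (T : Finset E3) (hT : IsTetrahedron T) :
    ∃ t0 ∈ T, ∃ t1 ∈ T, ∃ t2 ∈ T,
      dt (cr (fun i => t1 i - t0 i) (fun i => t2 i - t0 i))
        (cr (fun i => t1 i - t0 i) (fun i => t2 i - t0 i)) ≠ 0 := by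
  by_contra hcon
  push Not at hcon
  have h1 : 1 < T.card := by rw [hT.1]; norm_num
  obtain ⟨t0, h0, t1, ht1, hne⟩ := Finset.one_lt_card.1 h1
  apply hT.2
  apply Collinear.coplanar
  rw [collinear_iff_of_mem (p₀ := t0) (by exact_mod_cast h0)]
  refine ⟨t1 - t0, fun t2 ht2 => ?_⟩
  have h3 := hcon t0 h0 t1 ht1 t2 (by exact_mod_cast ht2)
  set u : Fin 3 → ℝ := fun i => t1 i - t0 i with hu
  set w : Fin 3 → ℝ := fun i => t2 i - t0 i with hw
  have hu0 : u 0 * u 0 + u 1 * u 1 + u 2 * u 2 ≠ 0 := by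
    intro h
    apply hne
    obtain ⟨e0, e1, e2⟩ := sq3 _ _ _ h
    ext i
    fin_cases i
    · simp only [hu] at e0; simp only [Fin.zero_eta]; linarith
    · simp only [hu] at e1; simp only [Fin.mk_one]; linarith
    · simp only [hu] at e2; simp only [Fin.reduceFinMk]; linarith
  unfold dt at h3
  simp only [cr, Matrix.cons_val] at h3
  obtain ⟨c0, c1, c2⟩ := sq3 _ _ _ h3
  refine ⟨(u 0 * w 0 + u 1 * w 1 + u 2 * w 2) / (u 0 * u 0 + u 1 * u 1 + u 2 * u 2), ?_⟩
  have key : ∀ i, w i = (u 0 * w 0 + u 1 * w 1 + u 2 * w 2) / (u 0 * u 0 + u 1 * u 1 + u 2 * u 2) *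
      u i := by
    intro i
    rw [div_mul_eq_mul_div, eq_div_iff hu0]
    fin_cases i
    · simp only [Fin.zero_eta]; linear_combination (-u 1) * c2 + u 2 * c1
    · simp only [Fin.mk_one]; linear_combination u 0 * c2 - u 2 * c0
    · simp only [Fin.reduceFinMk]; linear_combination u 1 * c0 - u 0 * c1
  ext i
  have hk := key i
  simp only [hw] at hk
  simp only [vadd_eq_add, PiLp.add_apply, PiLp.smul_apply, PiLp.sub_apply, smul_eq_mul]
  change t2 i = _ * u i + t0 i
  linarith

/-- the coordinates of the points of `T` are algebraic numbers -/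
def AlgCoords (T : Finset E3) : Prop := ∀ x ∈ T, ∀ i, IsAlgebraic ℚ (x i)

theorem exists_int (x : ℝ) (h : IsAlgebraic ℚ x) : ∃ m : ℤ, m ≠ 0 ∧ IsIntegral ℤ ((m : ℝ) * x) := by
  have h1 : IsAlgebraic ℤ x := (IsFractionRing.isAlgebraic_iff ℤ ℚ ℝ).2 h
  obtain ⟨y, hy, hi⟩ := h1.exists_integral_multiple
  refine ⟨y, hy, ?_⟩
  rwa [zsmul_eq_mul] at hi

theorem exists_common (X : Finset ℝ) (h : ∀ x ∈ X, IsAlgebraic ℚ x) :
    ∃ z : ℤ, 0 < z ∧ ∀ x ∈ X, IsIntegral ℤ ((z : ℝ) * x) := by
  classical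
  have h1 : ∀ x : ℝ, ∃ m : ℤ, x ∈ X → m ≠ 0 ∧ IsIntegral ℤ ((m : ℝ) * x) := by
    intro x
    by_cases hx : x ∈ X
    · obtain ⟨m, hm⟩ := exists_int x (h x hx)
      exact ⟨m, fun _ => hm⟩
    · exact ⟨0, fun h => absurd h hx⟩
  choose m hm using h1
  have hne : (∏ x ∈ X, m x) ≠ 0 := by
    rw [Finset.prod_ne_zero_iff]
    intro x hx
    exact (hm x hx).1
  refine ⟨(∏ x ∈ X, m x) ^ 2, by positivity, ?_⟩
  intro x hx
  have e : (((∏ x ∈ X, m x) ^ 2 : ℤ) : ℝ) * x =
      (((∏ y ∈ X.erase x, m y) * (∏ x ∈ X, m x) : ℤ) : ℝ) * ((m x : ℝ) * x) := by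
    have h2 : (∏ x ∈ X, m x) = m x * ∏ y ∈ X.erase x, m y := (Finset.mul_prod_erase X m hx).symm
    have h3 : (∏ x ∈ X, m x) ^ 2 = ((∏ y ∈ X.erase x, m y) * (∏ x ∈ X, m x)) * m x := by
      rw [sq]
      nth_rewrite 1 [h2]
      ring
    rw [h3]
    push_cast
    ring
  rw [e]
  exact (isIntegral_algebraMap (R := ℤ) (A := ℝ)
    (x := (∏ y ∈ X.erase x, m y) * (∏ x ∈ X, m x))).mul (hm x hx).2

/-- a set with algebraic coordinates is, up to scaling, the image of a set with coordinates in a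
subring of the reals that is a free abelian group of finite rank -/
theorem exists_model (T : Finset E3) (hT : AlgCoords T) :
    ∃ (A : Type) (_ : CommRing A) (D : ℕ) (_ : Module.Basis (Fin D) ℤ A) (ψ : A →+* ℝ)
      (Z : E3 → (Fin 3 → A)) (N : ℝ), Function.Injective ψ ∧ 0 < N ∧
      ∀ x ∈ T, emb ψ (Z x) = N • x := by
  classical
  set X : Finset ℝ := T.biUnion fun x => Finset.univ.image fun i => x i with hX
  have hXalg : ∀ x ∈ X, IsAlgebraic ℚ x := by
    intro y hy
    rw [hX, Finset.mem_biUnion] at hy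
    obtain ⟨x, hx, hy⟩ := hy
    obtain ⟨i, _, rfl⟩ := Finset.mem_image.1 hy
    exact hT x hx i
  obtain ⟨z, hz, hint⟩ := exists_common X hXalg
  let K := IntermediateField.adjoin ℚ (X : Set ℝ)
  have : FiniteDimensional ℚ K := by
    have : Finite (X : Set ℝ) := X.finite_toSet
    exact IntermediateField.finiteDimensional_adjoin fun x hx =>
      (hXalg x (by exact_mod_cast hx)).isIntegral
  have : NumberField K := ⟨⟩
  let ψ : NumberField.RingOfIntegers K →+* ℝ :=
    (algebraMap K ℝ).comp (algebraMap (NumberField.RingOfIntegers K) K)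
  have hψ : Function.Injective ψ := (algebraMap K ℝ).injective.comp
    (FaithfulSMul.algebraMap_injective (NumberField.RingOfIntegers K) K)
  have hel : ∀ x ∈ X, ∃ a : NumberField.RingOfIntegers K, ψ a = z * x := by
    intro x hx
    have hxK : x ∈ K := IntermediateField.subset_adjoin ℚ _ (by exact_mod_cast hx)
    have hzK : (z : ℝ) * x ∈ K := K.mul_mem (by exact_mod_cast K.algebraMap_mem (z : ℚ)) hxK
    have h1 : IsIntegral ℤ (⟨(z : ℝ) * x, hzK⟩ : K) := by
      have h2 := hint x hx
      exact (isIntegral_algebraMap_iff (A := K) (B := ℝ) (algebraMap K ℝ).injective).1 h2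
    exact ⟨⟨⟨(z : ℝ) * x, hzK⟩, h1⟩, rfl⟩
  have hZ : ∀ x : E3, ∃ w : Fin 3 → NumberField.RingOfIntegers K, x ∈ T →
      emb ψ w = (z : ℝ) • x := by
    intro x
    by_cases hx : x ∈ T
    · have h3 : ∀ i, ∃ a : NumberField.RingOfIntegers K, ψ a = z * x i := by
        intro i
        refine hel (x i) ?_
        rw [hX, Finset.mem_biUnion]
        exact ⟨x, hx, Finset.mem_image_of_mem _ (Finset.mem_univ i)⟩
      choose w hw using h3
      refine ⟨w, fun _ => ?_⟩
      ext i
      exact hw i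
    · exact ⟨0, fun h => absurd h hx⟩
  choose Z hZ using hZ
  exact ⟨NumberField.RingOfIntegers K, inferInstance, _,
    (NumberField.RingOfIntegers.basis K).reindex (Fintype.equivFin _), ψ, Z, z, hψ,
    by exact_mod_cast hz, hZ⟩

/-- the lower bound for a tetrahedron with algebraic coordinates -/
theorem main_alg (T : Finset E3) (hT : IsTetrahedron T) (hA : AlgCoords T) :
    ∃ c : ℝ, 0 < c ∧ ∀ᶠ n : ℕ in atTop, ∃ P : Finset E3, P.card = n ∧
      c * (n : ℝ) ^ (5 / 3 : ℝ) ≤ s P T := by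
  classical
  obtain ⟨A, _, D, b, ψ, Z, N, hψ, hN, hZ⟩ := exists_model T hA
  have himg : emb ψ '' ((T.image Z : Finset (Fin 3 → A)) : Set (Fin 3 → A)) =
      (fun x => N • x) '' (T : Set E3) := by
    rw [Finset.coe_image, Set.image_image]
    exact Set.image_congr fun x hx => hZ x (by exact_mod_cast hx)
  have hnc : NonCol ψ (T.image Z) := by
    obtain ⟨t0, h0, t1, h1, t2, h2, hne⟩ := exists_noncol T hT
    refine ⟨Z t0, Finset.mem_image_of_mem _ h0, Z t1, Finset.mem_image_of_mem _ h1, Z t2,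
      Finset.mem_image_of_mem _ h2, ?_⟩
    have hz : ∀ x ∈ T, ∀ i, ψ (Z x i) = N * x i := by
      intro x hx i
      exact congrArg (fun v : E3 => v i) (hZ x hx)
    have e1 : (fun i => ψ (Z t1 i) - ψ (Z t0 i)) = fun i => N * (t1 i - t0 i) := by
      funext i
      rw [hz t1 h1, hz t0 h0]
      ring
    have e2 : (fun i => ψ (Z t2 i) - ψ (Z t0 i)) = fun i => N * (t2 i - t0 i) := by
      funext i
      rw [hz t2 h2, hz t0 h0]
      ring
    rw [e1, e2]
    have e3 : dt (cr (fun i => N * (t1 i - t0 i)) (fun i => N * (t2 i - t0 i)))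
        (cr (fun i => N * (t1 i - t0 i)) (fun i => N * (t2 i - t0 i))) =
        N ^ 4 * dt (cr (fun i => t1 i - t0 i) (fun i => t2 i - t0 i))
        (cr (fun i => t1 i - t0 i) (fun i => t2 i - t0 i)) := by
      simp [dt, cr]
      ring
    rw [e3]
    exact mul_ne_zero (pow_ne_zero _ hN.ne') hne
  obtain ⟨c, hc, h⟩ := Pool.Agent.K9h66.ST.alg_main ψ b hψ (T.image Z) hnc
  refine ⟨c, hc, ?_⟩
  filter_upwards [h] with n hn
  obtain ⟨P, 𝒮, hP, h1, h2⟩ := hn
  refine ⟨P, hP, h1.trans ?_⟩
  have h3 : 𝒮.card ≤ s P T := by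
    unfold s
    refine Finset.card_le_card ?_
    intro S hS
    obtain ⟨h5, g, r, hr, hg⟩ := h2 S hS
    rw [himg, Set.image_image] at hg
    have hsim : Similar T S := by
      refine ⟨g, r * N, mul_pos hr hN, ?_⟩
      rw [← hg]
      refine Set.image_congr fun x _ => ?_
      rw [mul_smul]
    have htet := similar_tet hsim hT
    rw [Finset.mem_filter, Finset.mem_powersetCard]
    exact ⟨⟨h5, htet.1⟩, htet, hsim⟩
  exact_mod_cast h3

theorem s_congr (P : Finset E3) {T T' : Finset E3} (h : Similar T T') : s P T' ≤ s P T := by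
  classical
  unfold s
  refine Finset.card_le_card ?_
  intro S hS
  rw [Finset.mem_filter] at hS ⊢
  exact ⟨hS.1, hS.2.1, similar_trans h hS.2.2⟩

/-- the tetrahedron with vertices `0, e₀, e₁, e₂` -/
noncomputable def corner : Finset E3 := by
  classical
  exact insert 0 (Finset.univ.image fun i : Fin 3 => EuclideanSpace.single i (1 : ℝ))

theorem corner_tet : IsTetrahedron corner := by
  classical
  constructor
  · unfold corner
    rw [Finset.card_insert_of_notMem, Finset.card_image_of_injective]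
    · simp
    · intro i j h
      by_contra hij
      have := congrArg (fun v : E3 => v i) h
      simp [hij] at this
    · intro h
      obtain ⟨i, _, hi⟩ := Finset.mem_image.1 h
      have := congrArg (fun v : E3 => v i) hi
      simp at this
  · intro h
    have htop : vectorSpan ℝ (corner : Set E3) = ⊤ := by
      rw [eq_top_iff, ← (EuclideanSpace.basisFun (Fin 3) ℝ).toBasis.span_eq, Submodule.span_le]
      rintro _ ⟨i, rfl⟩
      have h1 : EuclideanSpace.single i (1 : ℝ) ∈ (corner : Set E3) := by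
        unfold corner
        simp
      have h0 : (0 : E3) ∈ (corner : Set E3) := by
        unfold corner
        simp
      have h2 := vsub_mem_vectorSpan ℝ h1 h0
      rw [vsub_eq_sub, sub_zero] at h2
      simpa using h2
    unfold Coplanar at h
    rw [htop, rank_top, rank_eq_card_basis (EuclideanSpace.basisFun (Fin 3) ℝ).toBasis] at h
    simp only [Fintype.card_fin] at h
    have h3 : ((3 : ℕ) : Cardinal.{0}) ≤ ((2 : ℕ) : Cardinal.{0}) := by exact_mod_cast h
    rw [Nat.cast_le] at h3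
    omega

theorem corner_alg : AlgCoords corner := by
  classical
  intro x hx i
  unfold corner at hx
  rw [Finset.mem_insert] at hx
  rcases hx with rfl | hx
  · exact isAlgebraic_zero
  · obtain ⟨j, _, rfl⟩ := Finset.mem_image.1 hx
    by_cases h : i = j
    · subst h
      simpa using isAlgebraic_one
    · simpa [h] using isAlgebraic_zero

/-- For every tetrahedron `T` that is similar to a tetrahedron with algebraic coordinates, the
largest number of tetrahedra similar to `T` spanned by `n` points is at least `c n^{5/3}`. In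
particular `f(n) ≥ c n^{5/3}`. -/
theorem result :
    (∀ T : Finset E3, IsTetrahedron T →
      (∃ T' : Finset E3, Similar T T' ∧ ∀ x ∈ T', ∀ i, IsAlgebraic ℚ (x i)) →
      ∃ c : ℝ, 0 < c ∧ ∀ᶠ n : ℕ in atTop, c * (n : ℝ) ^ (5 / 3 : ℝ) ≤ fT T n) ∧
    (∃ c : ℝ, 0 < c ∧ ∀ᶠ n : ℕ in atTop, c * (n : ℝ) ^ (5 / 3 : ℝ) ≤ f n) := by
  have h1 : ∀ T : Finset E3, IsTetrahedron T →
      (∃ T' : Finset E3, Similar T T' ∧ ∀ x ∈ T', ∀ i, IsAlgebraic ℚ (x i)) →
      ∃ c : ℝ, 0 < c ∧ ∀ᶠ n : ℕ in atTop, c * (n : ℝ) ^ (5 / 3 : ℝ) ≤ fT T n := by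
    rintro T hT ⟨T', hsim, hA⟩
    obtain ⟨c, hc, h⟩ := main_alg T' (similar_tet hsim hT) hA
    refine ⟨c, hc, ?_⟩
    filter_upwards [h] with n hn
    obtain ⟨P, hP, h2⟩ := hn
    have h3 : s P T' ≤ fT T n := by
      rw [← hP]
      exact (s_congr P hsim).trans (s_le_fT P T)
    exact h2.trans (by exact_mod_cast h3)
  refine ⟨h1, ?_⟩
  obtain ⟨c, hc, h⟩ := main_alg corner corner_tet corner_alg
  refine ⟨c, hc, ?_⟩
  filter_upwards [h] with n hn
  obtain ⟨P, hP, h2⟩ := hn
  have h3 : s P corner ≤ f n := by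
    rw [← hP]
    exact s_le_f P corner corner_tet
  exact h2.trans (by exact_mod_cast h3)

end Pool.Agent.Results.MP_36f34d_co.FiveThirds
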